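import Pool.Agent.X23.L3.Stm
import Pool.Agent.H168DD.TB

/-! Part TB of `L_3 ≤ 2/3` (MP_688354_co). -/

set_option autoImplicit false

namespace Pool.Agent.X82.LT

open Pool.Agent.X23.L3

theorem three_le {n : ℕ} (X : Sys n) : 3 ≤ n := by
  by_contra hn
  have hker : LinearMap.ker (Matrix.mulVecLin (Matrix.of X.a)) ≠ ⊥ := by
    apply LinearMap.ker_ne_bot_of_finrank_lt
    simp; omega
  obtain ⟨v, hv, hv0⟩ := Submodule.exists_mem_ne_zero_of_ne_bot hker
  have hv' : ∀ i, X.a i ⬝ᵥ v = 0 := by
    intro i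
    have := congrFun (LinearMap.mem_ker.1 hv) i
    simpa [Matrix.mulVec] using this
  obtain ⟨C, hC⟩ := X.bd
  obtain ⟨k, hk⟩ := Function.ne_iff.1 hv0
  have hk' : v k ≠ 0 := by simpa using hk
  have key : ∀ t : ℝ, |X.o k + t * v k| ≤ C := by
    intro t
    have := hC (X.o + t • v) (fun i => by
      rw [dotProduct_add, dotProduct_smul, hv', smul_zero, add_zero]
      exact (X.ho i).le) k
    simpa using this
  have h1 := key ((C + 1 - X.o k) / v k)
  rw [div_mul_cancel₀ _ hk', add_sub_cancel] at h1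
  have := le_abs_self (C + 1)
  linarith

theorem touch_symm {n : ℕ} {X : Sys n} {i j : Fin n} (h : touch X i j) : touch X j i := by
  obtain ⟨x, h1, h2, h3⟩ := h
  exact ⟨x, h1, h3, h2⟩

/-- the graph of touching facets -/
def gr {n : ℕ} (X : Sys n) : SimpleGraph (Fin n) where
  Adj i j := i ≠ j ∧ touch X i j
  symm := ⟨fun _ _ h => ⟨h.1.symm, touch_symm h.2⟩⟩
  loopless := ⟨fun _ h => h.1 rfl⟩

theorem bound (hNP : S_NP) (hPT : S_PT2) {n : ℕ} (X : Sys n) (A : Finset (Fin n))
    (F : Finset (Finset (Fin n))) (hne : ∀ O ∈ F, O.Nonempty)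
    (hdis : ∀ O ∈ F, ∀ O' ∈ F, O ≠ O' → Disjoint O O') (hout : ∀ O ∈ F, O ⊆ Finset.univ \ A)
    (hcl : ∀ O ∈ F, ∀ x ∈ O, ∀ y, (gr X).Adj x y → y ∈ O ∨ y ∈ A) :
    3 * F.card ≤ n + 3 * A.card := by
  have hn := three_le X
  have hsum : F.card + A.card ≤ n := by
    have h1 : F.card ≤ (F.biUnion id).card := by
      apply Finset.card_le_card_biUnion
      · intro O hO O' hO' hne'
        exact hdis O hO O' hO' hne'
      · intro O hO
        exact hne O hO
    have h2 : (F.biUnion id) ⊆ Finset.univ \ A := by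
      intro x hx
      obtain ⟨O, hO, hx⟩ := Finset.mem_biUnion.1 hx
      exact hout O hO hx
    have h3 := Finset.card_le_card h2
    have h4 : (Finset.univ \ A).card = n - A.card := by
      rw [Finset.card_sdiff_of_subset (Finset.subset_univ _), Finset.card_univ, Fintype.card_fin]
    have h5 : A.card ≤ n := by simpa using Finset.card_le_univ A
    omega
  have hfam : Fam X A (fun r : ↥F => ((r.1 : Finset (Fin n)) : Set (Fin n))) := by
    refine ⟨fun r => ?_, fun r i hi hA => ?_, fun r r' i hi hi' => ?_, fun r k l hk hl ht => ?_⟩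
    · exact_mod_cast hne r.1 r.2
    · exact (Finset.mem_sdiff.1 (hout r.1 r.2 hi)).2 hA
    · by_contra hrr
      exact (Finset.disjoint_left.1 (hdis r.1 r.2 r'.1 r'.2 (fun h => hrr (Subtype.ext h))) hi) hi'
    · by_cases hkl : k = l
      · exact hkl ▸ hk
      · rcases hcl r.1 r.2 k hk l ⟨hkl, ht⟩ with h | h
        · exact h
        · exact absurd h hl
  by_cases hv : ∃ v : Fin 3 → ℝ, v ≠ 0 ∧ ∀ s ∈ A, X.a s ⬝ᵥ v = 0
  · obtain ⟨v, hv0, hv⟩ := hv
    obtain ⟨h1, h2⟩ := hNP n X A _ _ hfam v hv0 hv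
    rw [Fintype.card_coe] at h1 h2
    by_cases hA : A = ∅
    · have := h2 hA
      omega
    · have := Finset.card_pos.2 (Finset.nonempty_iff_ne_empty.2 hA)
      omega
  · have := hPT n X A _ _ hfam (fun v hv' => by
      by_contra h0
      exact hv ⟨v, h0, hv'⟩)
    rw [Fintype.card_coe] at this
    omega

theorem matching (hNP : S_NP) (hPT : S_PT2) {n : ℕ} (X : Sys n) :
    ∃ (U : Finset (Fin n)) (m : Fin n → Fin n), U.card ≤ n / 3 ∧
      ∀ x, x ∉ U → m x ∉ U ∧ m (m x) = x ∧ (gr X).Adj x (m x) := by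
  have hn := three_le X
  have main : ∀ l, l ≤ n / 3 → Even (n + l) →
      (∀ (A : Finset (Fin n)) (F : Finset (Finset (Fin n))), (∀ O ∈ F, Odd O.card) →
      (∀ O ∈ F, ∀ O' ∈ F, O ≠ O' → Disjoint O O') → (∀ O ∈ F, O ⊆ Finset.univ \ A) →
      (∀ O ∈ F, ∀ x ∈ O, ∀ y, (gr X).Adj x y → y ∈ O ∨ y ∈ A) → F.card ≤ A.card + l) →
      ∃ (U : Finset (Fin n)) (m : Fin n → Fin n), U.card ≤ n / 3 ∧
      ∀ x, x ∉ U → m x ∉ U ∧ m (m x) = x ∧ (gr X).Adj x (m x) := by
    intro l hl he hc
    obtain ⟨U, m, _, hU, hm⟩ := H168DD.tutte_berge (gr X) Finset.univ l (by simpa using he)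
      (fun A F _ h1 h2 h3 h4 => hc A F h1 h2 h3 (fun O hO x hx y hxy =>
        h4 O hO x hx y (Finset.mem_univ _) hxy))
    refine ⟨U, m, hU.trans hl, fun x hx => ?_⟩
    obtain ⟨h1, h2, h3⟩ := hm x (by simpa using hx)
    exact ⟨(Finset.mem_sdiff.1 h1).2, h2, h3⟩
  rcases Nat.even_or_odd (n + n / 3) with he | ho
  · refine main (n / 3) le_rfl he ?_
    intro A F h1 h2 h3 h4
    have := bound hNP hPT X A F (fun O hO => Finset.card_pos.1 (h1 O hO).pos) h2 h3 h4
    omega
  · have h0 : 1 ≤ n / 3 := by omega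
    refine main (n / 3 - 1) (by omega) (by
      rcases ho with ⟨k, hk⟩; exact ⟨k, by omega⟩) ?_
    intro A F h1 h2 h3 h4
    have hb := bound hNP hPT X A F (fun O hO => Finset.card_pos.1 (h1 O hO).pos) h2 h3 h4
    by_contra hlt
    have hF : F.card = A.card + n / 3 := by omega
    set W : Finset (Fin n) := (Finset.univ \ A) \ F.biUnion id with hW
    have hsub : F.biUnion id ⊆ Finset.univ \ A := by
      intro x hx
      obtain ⟨O, hO, hx⟩ := Finset.mem_biUnion.1 hx
      exact h3 O hO hx
    have hWc : W.card + (F.biUnion id).card + A.card = n := by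
      have e1 := Finset.card_sdiff_add_card_eq_card hsub
      have e2 := Finset.card_sdiff_add_card_eq_card (Finset.subset_univ A)
      rw [Finset.card_univ, Fintype.card_fin] at e2
      rw [← hW] at e1
      omega
    have hodd : (F.biUnion id).card % 2 = F.card % 2 := by
      have hcb : (F.biUnion id).card = ∑ O ∈ F, O.card :=
        Finset.card_biUnion (fun O hO O' hO' hne' => h2 O hO O' hO' hne')
      rw [hcb, Finset.sum_nat_mod]
      rw [Finset.sum_congr rfl (g := fun _ => 1) (fun O hO => Nat.odd_iff.1 (h1 O hO))]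
      simp
    have hWodd : W.card % 2 = 1 := by
      rcases ho with ⟨k, hk⟩; omega
    have hWne : W.Nonempty := Finset.card_pos.1 (by omega)
    have hWd : ∀ O ∈ F, Disjoint W O := by
      intro O hO
      rw [Finset.disjoint_left]
      intro x hx hxO
      exact (Finset.mem_sdiff.1 hx).2 (Finset.mem_biUnion.2 ⟨O, hO, hxO⟩)
    have hWF : W ∉ F := by
      intro h
      have := hWd W h
      rw [disjoint_self] at this
      exact hWne.ne_empty this
    have := bound hNP hPT X A (insert W F) ?_ ?_ ?_ ?_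
    · rw [Finset.card_insert_of_notMem hWF] at this
      omega
    · intro O hO
      rcases Finset.mem_insert.1 hO with rfl | hO
      · exact hWne
      · exact Finset.card_pos.1 (h1 O hO).pos
    · intro O hO O' hO' hne'
      rcases Finset.mem_insert.1 hO with rfl | hO <;> rcases Finset.mem_insert.1 hO' with rfl | hO'
      · exact absurd rfl hne'
      · exact hWd O' hO'
      · exact (hWd O hO).symm
      · exact h2 O hO O' hO' hne'
    · intro O hO
      rcases Finset.mem_insert.1 hO with rfl | hO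
      · exact Finset.sdiff_subset
      · exact h3 O hO
    · intro O hO x hx y hxy
      rcases Finset.mem_insert.1 hO with rfl | hO
      · by_cases hyA : y ∈ A
        · exact Or.inr hyA
        · left
          rw [hW, Finset.mem_sdiff]
          refine ⟨by simpa using hyA, fun hy => ?_⟩
          obtain ⟨O', hO', hy⟩ := Finset.mem_biUnion.1 hy
          rcases h4 O' hO' y hy x hxy.symm with h | h
          · exact Finset.disjoint_left.1 (hWd O' hO') hx h
          · exact (Finset.mem_sdiff.1 (Finset.mem_sdiff.1 hx).1).2 h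
      · exact h4 O hO x hx y hxy

theorem t_TB : S_NP → S_PT2 → S_TB := by
  classical
  intro hNP hPT n X
  obtain ⟨U, m, hU, hm⟩ := matching hNP hPT X
  have hc : ∀ x, ∃ p : Fin 3 → ℝ, x ∉ U →
      ((∀ k, X.a k ⬝ᵥ p ≤ X.b k) ∧ X.a x ⬝ᵥ p = X.b x ∧ X.a (m x) ⬝ᵥ p = X.b (m x)) := by
    intro x
    by_cases hx : x ∈ U
    · exact ⟨0, fun h => absurd hx h⟩
    · obtain ⟨p, hp⟩ := (hm x hx).2.2.2
      exact ⟨p, fun _ => hp⟩
  choose c hc using hc
  set D : Finset (Fin n) := Finset.univ.filter (fun x => x ∉ U ∧ x < m x) with hD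
  set D' : Finset (Fin n) := Finset.univ.filter (fun x => x ∉ U ∧ m x < x) with hD'
  have hDD : D.card ≤ D'.card := by
    apply Finset.card_le_card_of_injOn m
    · intro x hx
      have hx' := (Finset.mem_filter.1 hx).2
      obtain ⟨h1, h2, _⟩ := hm x hx'.1
      exact Finset.mem_filter.2 ⟨Finset.mem_univ _, h1, by rw [h2]; exact hx'.2⟩
    · intro x hx y hy hxy
      have hx' := (Finset.mem_filter.1 hx).2
      have hy' := (Finset.mem_filter.1 hy).2
      rw [← (hm x hx'.1).2.1, ← (hm y hy'.1).2.1, hxy]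
  have hdisj : Disjoint D D' := by
    rw [Finset.disjoint_left]
    intro x hx hx'
    have h1 := (Finset.mem_filter.1 hx).2.2
    have h2 := (Finset.mem_filter.1 hx').2.2
    exact absurd h1 (not_lt.2 h2.le)
  have hdU : Disjoint (D ∪ D') U := by
    rw [Finset.disjoint_left]
    intro x hx hxU
    rcases Finset.mem_union.1 hx with hx | hx
    · exact (Finset.mem_filter.1 hx).2.1 hxU
    · exact (Finset.mem_filter.1 hx).2.1 hxU
  have hcard : D.card + D'.card + U.card ≤ n := by
    rw [← Finset.card_union_of_disjoint hdisj, ← Finset.card_union_of_disjoint hdU]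
    simpa using Finset.card_le_univ (D ∪ D' ∪ U)
  refine ⟨U.image X.y ∪ D.image c, ?_, ?_, ?_⟩
  · have h1 := Finset.card_union_le (U.image X.y) (D.image c)
    have h2 := Finset.card_image_le (s := U) (f := X.y)
    have h3 := Finset.card_image_le (s := D) (f := c)
    omega
  · intro x hx
    rcases Finset.mem_union.1 hx with hx | hx
    · obtain ⟨i, _, rfl⟩ := Finset.mem_image.1 hx
      refine ⟨fun k => ?_, i, X.hy i⟩
      by_cases hk : k = i
      · rw [hk]; exact (X.hy i).le
      · exact (X.hy2 i k hk).le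
    · obtain ⟨i, hi, rfl⟩ := Finset.mem_image.1 hx
      have := hc i (Finset.mem_filter.1 hi).2.1
      exact ⟨this.1, i, this.2.1⟩
  · intro i
    by_cases hi : i ∈ U
    · exact ⟨X.y i, Finset.mem_union_left _ (Finset.mem_image_of_mem _ hi), X.hy i⟩
    · obtain ⟨h1, h2, h3⟩ := hm i hi
      rcases lt_or_gt_of_ne h3.1 with h | h
      · exact ⟨c i, Finset.mem_union_right _ (Finset.mem_image_of_mem _
          (Finset.mem_filter.2 ⟨Finset.mem_univ _, hi, h⟩)), (hc i hi).2.1⟩
      · refine ⟨c (m i), Finset.mem_union_right _ (Finset.mem_image_of_mem _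
          (Finset.mem_filter.2 ⟨Finset.mem_univ _, h1, by rw [h2]; exact h⟩)), ?_⟩
        have := (hc (m i) h1).2.2
        rwa [h2] at this

end Pool.Agent.X82.LT
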